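import Pool.Agent.Helper656.CapLower
import Pool.Agent.Helper656.CapUpper

open scoped ENNReal NNReal
open Pool.Agent.Helper656.Cap

/-- For every `n ≥ 1`, `α > 0` and `0 < p ≤ n / (n + α)` the Riesz-potential capacity of the Hardy
space `H^p(ℝⁿ)` (quasi-norm: the grand maximal function of any sufficiently large order `N`) is
comparable to the Hausdorff content of dimension `n - α p` on all compact sets. -/
theorem Pool.Agent.Results.MP_4ab57e_an.CapContent.result :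
    ∀ n : ℕ, 1 ≤ n → ∀ α p : ℝ, 0 < α → 0 < p → p ≤ n / (n + α) →
      ∃ N₀ : ℕ, ∀ N : ℕ, N₀ ≤ N → ∃ C : ℝ≥0, 1 ≤ C ∧
        ∀ K : Set (E n), IsCompact K →
          rieszCap N α p K ≤ C * hausdorffContent (n - α * p) K ∧
          hausdorffContent (n - α * p) K ≤ C * rieszCap N α p K := by
  intro n hn α p hα hp hpn
  have hn' : (1 : ℝ) ≤ n := by exact_mod_cast hn
  have hden : (0 : ℝ) < n + α := by linarith
  rw [le_div_iff₀ hden] at hpn
  have hp1 : p ≤ 1 := by nlinarith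
  have hαp : α * p < n := by nlinarith
  obtain ⟨N₀, hN₀⟩ := cap_le_content hn α p hα hp hp1 hαp
  refine ⟨N₀, fun N hN => ?_⟩
  obtain ⟨C₁, h₁⟩ := hN₀ N hN
  obtain ⟨C₂, h₂⟩ := content_le_cap hn α p hα hp hp1 hαp N
  refine ⟨C₁ + C₂ + 1, by simp, fun K hK => ⟨(h₁ K hK).trans ?_, (h₂ K).trans ?_⟩⟩
  · gcongr
    calc C₁ ≤ C₁ + (C₂ + 1) := le_self_add
      _ = C₁ + C₂ + 1 := by ring
  · gcongr
    calc C₂ ≤ C₂ + (C₁ + 1) := le_self_add
      _ = C₁ + C₂ + 1 := by ring
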